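import Mathlib

set_option autoImplicit false

/-!
Spherical codes from the flags of a projective plane of order `q`.

For a flag `(p, l)` we take the vector
`(a e_p + 1_l - c 1, a e_l + 1_p - c 1, s)` in `ℝ^P ⊕ ℝ^L ⊕ ℝ`.
With `a = 2n`, `c = (a + q + 1)/n` and a suitable `s`, after normalisation two distinct flags have
inner product `1/2` when they share their point or their line, and a negative inner product otherwise.
-/

namespace Pool.Agent.H185R3

open Configuration Configuration.ProjectivePlane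
open scoped LinearAlgebra.Projectivization

variable (P L : Type) [Fintype P] [Fintype L] [Membership P L]

/-- the 0/1 indicator of a proposition -/
noncomputable def ind (h : Prop) : ℝ := by
  classical exact if h then 1 else 0

theorem ind_true {h : Prop} (H : h) : ind h = 1 := by simp [ind, H]
theorem ind_false {h : Prop} (H : ¬ h) : ind h = 0 := by simp [ind, H]

theorem ind_mul_self (h : Prop) : ind h * ind h = ind h := by
  by_cases H : h <;> simp [ind, H]

theorem sum_ind_eq {α : Type} [Fintype α] (x : α) (f : α → ℝ) :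
    ∑ y, ind (y = x) * f y = f x := by
  classical
  rw [Finset.sum_eq_single x]
  · rw [ind_true rfl, one_mul]
  · intro b _ hb
    rw [ind_false hb, zero_mul]
  · intro h
    exact absurd (Finset.mem_univ x) h

theorem sum_ind_card {α : Type} [Fintype α] (h : α → Prop) :
    ∑ y, ind (h y) = (Nat.card {y // h y} : ℝ) := by
  classical
  have : ∀ y, ind (h y) = if h y then (1 : ℝ) else 0 := by
    intro y
    by_cases H : h y <;> simp [ind, H]
  simp only [this]
  rw [Nat.card_eq_fintype_card, Fintype.card_subtype]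
  simp

section plane

variable [ProjectivePlane P L]

theorem sum_points (l : L) : ∑ p : P, ind (p ∈ l) = (order P L : ℝ) + 1 := by
  rw [sum_ind_card]
  have := pointCount_eq (P := P) l
  unfold pointCount at this
  rw [this]
  push_cast
  ring

theorem sum_lines (p : P) : ∑ l : L, ind (p ∈ l) = (order P L : ℝ) + 1 := by
  rw [sum_ind_card]
  have := lineCount_eq (L := L) p
  unfold lineCount at this
  rw [this]
  push_cast
  ring

theorem sum_points_two (l l' : L) :
    ∑ p : P, ind (p ∈ l) * ind (p ∈ l') = 1 + (order P L : ℝ) * ind (l = l') := by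
  classical
  by_cases h : l = l'
  · subst h
    simp only [ind_mul_self]
    rw [sum_points, ind_true trivial]
    ring
  · rw [ind_false h]
    obtain ⟨p0, hp0, hu⟩ := HasPoints.existsUnique_point P L l l' h
    rw [Finset.sum_eq_single p0]
    · rw [ind_true hp0.1, ind_true hp0.2]
      ring
    · intro b _ hb
      by_cases h1 : b ∈ l
      · by_cases h2 : b ∈ l'
        · exact absurd (hu b ⟨h1, h2⟩) hb
        · rw [ind_false h2, mul_zero]
      · rw [ind_false h1, zero_mul]
    · intro h
      exact absurd (Finset.mem_univ _) h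

theorem sum_lines_two (p p' : P) :
    ∑ l : L, ind (p ∈ l) * ind (p' ∈ l) = 1 + (order P L : ℝ) * ind (p = p') := by
  classical
  by_cases h : p = p'
  · subst h
    simp only [ind_mul_self]
    rw [sum_lines, ind_true trivial]
    ring
  · rw [ind_false h]
    obtain ⟨l0, hl0, hu⟩ := HasLines.existsUnique_line P L p p' h
    rw [Finset.sum_eq_single l0]
    · rw [ind_true hl0.1, ind_true hl0.2]
      ring
    · intro b _ hb
      by_cases h1 : p ∈ b
      · by_cases h2 : p' ∈ b
        · exact absurd (hu b ⟨h1, h2⟩) hb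
        · rw [ind_false h2, mul_zero]
      · rw [ind_false h1, zero_mul]
    · intro h
      exact absurd (Finset.mem_univ _) h

/-- the (unnormalised) vector of the flag `(p, l)` -/
noncomputable def vec (a c s : ℝ) (f : P × L) : EuclideanSpace ℝ (P ⊕ L ⊕ Unit) :=
  WithLp.toLp 2 (fun i => match i with
    | Sum.inl p' => a * ind (p' = f.1) + ind (p' ∈ f.2) - c
    | Sum.inr (Sum.inl l') => a * ind (l' = f.2) + ind (f.1 ∈ l') - c
    | Sum.inr (Sum.inr _) => s)

theorem inner_vec (a c s : ℝ) (f g : P × L) :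
    inner ℝ (vec P L a c s f) (vec P L a c s g) =
      (a ^ 2 + order P L) * (ind (f.1 = g.1) + ind (f.2 = g.2))
      + 2 * a * (ind (f.1 ∈ g.2) + ind (g.1 ∈ f.2))
      + (2 - 4 * c * (a + order P L + 1) + 2 * c ^ 2 * Fintype.card P + s ^ 2) := by
  classical
  have hcard : (Fintype.card L : ℝ) = Fintype.card P := by
    have := card_points_eq_card_lines P L
    exact_mod_cast this.symm
  have e1 : ∑ p : P, (a * ind (p = f.1) + ind (p ∈ f.2) - c) * (a * ind (p = g.1) + ind (p ∈ g.2) - c)
      = a ^ 2 * ind (f.1 = g.1) + a * ind (f.1 ∈ g.2) + a * ind (g.1 ∈ f.2)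
        + (1 + (order P L : ℝ) * ind (f.2 = g.2)) - 2 * c * (a + order P L + 1)
        + c ^ 2 * Fintype.card P := by
    have hx : ∀ p : P, (a * ind (p = f.1) + ind (p ∈ f.2) - c) * (a * ind (p = g.1) + ind (p ∈ g.2) - c)
        = ind (p = f.1) * (a ^ 2 * ind (p = g.1) + a * ind (p ∈ g.2) - a * c)
          + ind (p = g.1) * (a * ind (p ∈ f.2) - a * c)
          + ind (p ∈ f.2) * ind (p ∈ g.2) - c * ind (p ∈ f.2) - c * ind (p ∈ g.2) + c ^ 2 := by
      intro p; ring
    simp only [hx, Finset.sum_add_distrib, Finset.sum_sub_distrib, ← Finset.mul_sum]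
    rw [sum_ind_eq f.1, sum_ind_eq g.1, sum_points_two, sum_points, sum_points, Finset.sum_const,
      Finset.card_univ, nsmul_eq_mul]
    ring
  have e2 : ∑ l : L, (a * ind (l = f.2) + ind (f.1 ∈ l) - c) * (a * ind (l = g.2) + ind (g.1 ∈ l) - c)
      = a ^ 2 * ind (f.2 = g.2) + a * ind (g.1 ∈ f.2) + a * ind (f.1 ∈ g.2)
        + (1 + (order P L : ℝ) * ind (f.1 = g.1)) - 2 * c * (a + order P L + 1)
        + c ^ 2 * Fintype.card L := by
    have hx : ∀ l : L, (a * ind (l = f.2) + ind (f.1 ∈ l) - c) * (a * ind (l = g.2) + ind (g.1 ∈ l) - c)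
        = ind (l = f.2) * (a ^ 2 * ind (l = g.2) + a * ind (g.1 ∈ l) - a * c)
          + ind (l = g.2) * (a * ind (f.1 ∈ l) - a * c)
          + ind (f.1 ∈ l) * ind (g.1 ∈ l) - c * ind (f.1 ∈ l) - c * ind (g.1 ∈ l) + c ^ 2 := by
      intro p; ring
    simp only [hx, Finset.sum_add_distrib, Finset.sum_sub_distrib, ← Finset.mul_sum]
    rw [sum_ind_eq f.2, sum_ind_eq g.2, sum_lines_two, sum_lines, sum_lines, Finset.sum_const,
      Finset.card_univ, nsmul_eq_mul]
    ring
  rw [PiLp.inner_apply]
  simp only [Fintype.sum_sum_type, vec, RCLike.inner_apply, conj_trivial, Finset.univ_unique,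
    Finset.sum_singleton]
  have e1' : ∑ p : P, (a * ind (p = g.1) + ind (p ∈ g.2) - c) * (a * ind (p = f.1) + ind (p ∈ f.2) - c)
      = a ^ 2 * ind (f.1 = g.1) + a * ind (f.1 ∈ g.2) + a * ind (g.1 ∈ f.2)
        + (1 + (order P L : ℝ) * ind (f.2 = g.2)) - 2 * c * (a + order P L + 1)
        + c ^ 2 * Fintype.card P := by
    rw [← e1]; exact Finset.sum_congr rfl (fun _ _ => by ring)
  have e2' : ∑ l : L, (a * ind (l = g.2) + ind (g.1 ∈ l) - c) * (a * ind (l = f.2) + ind (f.1 ∈ l) - c)
      = a ^ 2 * ind (f.2 = g.2) + a * ind (g.1 ∈ f.2) + a * ind (f.1 ∈ g.2)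
        + (1 + (order P L : ℝ) * ind (f.1 = g.1)) - 2 * c * (a + order P L + 1)
        + c ^ 2 * Fintype.card L := by
    rw [← e2]; exact Finset.sum_congr rfl (fun _ _ => by ring)
  rw [e1', e2', hcard]
  ring

/-- The code: for a finite projective plane with `n` points and order `q` there are
`n (q + 1)` unit vectors in dimension `2 n + 1` with pairwise inner products `1/2` or negative. -/
theorem exists_code :
    ∃ S : Finset (EuclideanSpace ℝ (Fin (Fintype.card (P ⊕ L ⊕ Unit)))),
      (∀ x ∈ S, ‖x‖ = 1) ∧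
      (∀ x ∈ S, ∀ y ∈ S, x ≠ y → (inner ℝ x y < 0 ∨ inner ℝ x y = 1 / 2)) ∧
      (S.card : ℝ) = Fintype.card P * ((order P L : ℝ) + 1) := by
  classical
  set q : ℝ := (order P L : ℝ) with hq
  set n : ℝ := (Fintype.card P : ℝ) with hn
  have hq1 : 1 < q := by
    have := one_lt_order P L
    rw [hq]; exact_mod_cast this
  have hn0 : 0 < n := by
    rw [hn, card_points P L]
    positivity
  set a : ℝ := 2 * n with ha
  have ha0 : 0 < a := by positivity
  set c : ℝ := (a + q + 1) / n with hc
  have hcn : c * n = a + q + 1 := by rw [hc]; field_simp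
  have hpos : 0 ≤ 2 * c * (a + q + 1) - 2 - 4 * a := by
    have h1 : c * (a + q + 1) * n = (a + q + 1) ^ 2 := by
      calc c * (a + q + 1) * n = (c * n) * (a + q + 1) := by ring
        _ = _ := by rw [hcn]; ring
    have h2 : (a + q + 1) ^ 2 ≥ (a + 1 + 1 + 1) * a * 1 := by nlinarith
    have h3 : c * (a + q + 1) * n ≥ (2 * a + 1) * n := by
      rw [h1, ha]
      nlinarith [mul_pos hn0 hn0, mul_pos hn0 (sub_pos.2 hq1), sq_nonneg (q + 1)]
    have h4 : c * (a + q + 1) ≥ 2 * a + 1 := le_of_mul_le_mul_right h3 hn0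
    linarith
  set s : ℝ := Real.sqrt (2 * c * (a + q + 1) - 2 - 4 * a) with hs
  have hs2 : s ^ 2 = 2 * c * (a + q + 1) - 2 - 4 * a := Real.sq_sqrt hpos
  have hconst : 2 - 4 * c * (a + q + 1) + 2 * c ^ 2 * n + s ^ 2 = -4 * a := by
    rw [hs2]
    have : 2 * c ^ 2 * n = 2 * c * (c * n) := by ring
    rw [this, hcn]; ring
  set A : ℝ := a ^ 2 + q with hA
  have hA0 : 0 < A := by positivity
  set v : P × L → EuclideanSpace ℝ (P ⊕ L ⊕ Unit) := fun f => (Real.sqrt (2 * A))⁻¹ • vec P L a c s f with hv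
  have hin : ∀ f g, inner ℝ (v f) (v g) =
      (A * (ind (f.1 = g.1) + ind (f.2 = g.2)) + 2 * a * (ind (f.1 ∈ g.2) + ind (g.1 ∈ f.2))
        - 4 * a) / (2 * A) := by
    intro f g
    rw [hv]
    simp only
    rw [real_inner_smul_left, real_inner_smul_right, inner_vec, ← hq, ← hn, hconst, ← hA]
    have h2 : (Real.sqrt (2 * A))⁻¹ * (Real.sqrt (2 * A))⁻¹ = (2 * A)⁻¹ := by
      rw [← mul_inv, Real.mul_self_sqrt (by positivity)]
    rw [← mul_assoc, h2]
    field_simp
    ring
  set F : Finset (P × L) := Finset.univ.filter (fun f => f.1 ∈ f.2) with hF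
  have hself : ∀ f ∈ F, inner ℝ (v f) (v f) = 1 := by
    intro f hf
    have hf' : f.1 ∈ f.2 := (Finset.mem_filter.1 hf).2
    rw [hin, ind_true rfl, ind_true rfl, ind_true hf']
    field_simp
    ring
  have hcase : ∀ f ∈ F, ∀ g ∈ F, f ≠ g → (inner ℝ (v f) (v g) < 0 ∨ inner ℝ (v f) (v g) = 1 / 2) := by
    intro f hf g hg hne
    have hf' : f.1 ∈ f.2 := (Finset.mem_filter.1 hf).2
    have hg' : g.1 ∈ g.2 := (Finset.mem_filter.1 hg).2
    rw [hin]
    by_cases h1 : f.1 = g.1
    · have h2 : f.2 ≠ g.2 := fun h2 => hne (Prod.ext h1 h2)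
      right
      rw [ind_true h1, ind_false h2, ind_true (by rw [h1]; exact hg'), ind_true (by rw [← h1]; exact hf')]
      field_simp
      ring
    · by_cases h2 : f.2 = g.2
      · right
        rw [ind_false h1, ind_true h2, ind_true (by rw [← h2]; exact hf'), ind_true (by rw [h2]; exact hg')]
        field_simp
        ring
      · left
        rw [ind_false h1, ind_false h2]
        apply div_neg_of_neg_of_pos _ (by positivity)
        by_cases h3 : f.1 ∈ g.2
        · have h4 : g.1 ∉ f.2 := fun h4 => by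
            rcases Nondegenerate.eq_or_eq hf' h4 h3 hg' with h | h
            · exact h1 h
            · exact h2 h
          rw [ind_true h3, ind_false h4]
          linarith
        · rw [ind_false h3]
          have : ind (g.1 ∈ f.2) ≤ 1 := by
            by_cases h4 : g.1 ∈ f.2
            · rw [ind_true h4]
            · rw [ind_false h4]; norm_num
          nlinarith
  have hinj : Set.InjOn v F := by
    intro f hf g hg hfg
    by_contra hne
    have h1 := hself f hf
    have h2 := hcase f hf g hg hne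
    rw [← hfg, h1] at h2
    rcases h2 with h2 | h2 <;> norm_num at h2
  have hcardF : (F.card : ℝ) = n * (q + 1) := by
    have : (F.card : ℝ) = ∑ f : P × L, ind (f.1 ∈ f.2) := by
      rw [hF, Finset.card_filter]
      push_cast
      apply Finset.sum_congr rfl
      intro f _
      by_cases h : f.1 ∈ f.2 <;> simp [ind, h]
    rw [this, Fintype.sum_prod_type]
    simp only [sum_lines]
    rw [Finset.sum_const, Finset.card_univ, nsmul_eq_mul]
  let e := LinearIsometryEquiv.piLpCongrLeft 2 ℝ ℝ (Fintype.equivFin (P ⊕ L ⊕ Unit))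
  refine ⟨F.image (fun f => e (v f)), ?_, ?_, ?_⟩
  · intro x hx
    obtain ⟨f, hf, rfl⟩ := Finset.mem_image.1 hx
    rw [LinearIsometryEquiv.norm_map]
    have h1 := hself f hf
    rw [real_inner_self_eq_norm_sq] at h1
    have := norm_nonneg (v f)
    nlinarith
  · intro x hx y hy hxy
    obtain ⟨f, hf, rfl⟩ := Finset.mem_image.1 hx
    obtain ⟨g, hg, rfl⟩ := Finset.mem_image.1 hy
    have hne : f ≠ g := fun h => hxy (by rw [h])
    rw [LinearIsometryEquiv.inner_map_map]
    exact hcase f hf g hg hne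
  · rw [Finset.card_image_of_injOn]
    · exact hcardF
    · intro f hf g hg hfg
      exact hinj hf hg (e.injective hfg)

end plane

/-- There are projective planes of arbitrarily large order. -/
theorem main_disproof :
    ¬ (∀ α : ℝ, ∃ C : ℝ, ∀ d : ℕ, ∀ S : Finset (EuclideanSpace ℝ (Fin d)),
      (∀ x ∈ S, ‖x‖ = 1) →
      (∀ x ∈ S, ∀ y ∈ S, x ≠ y → (inner ℝ x y < 0 ∨ inner ℝ x y = α)) →
      (S.card : ℝ) ≤ C * (d : ℝ)) := by
  classical
  intro H
  obtain ⟨C, hC⟩ := H (1 / 2)
  obtain ⟨p, hp, hpp⟩ := Nat.exists_infinite_primes (⌈3 * |C|⌉₊ + 1)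
  haveI : Fact p.Prime := ⟨hpp⟩
  let Pt := ℙ (ZMod p) (Fin 3 → ZMod p)
  haveI : Finite Pt := (Projectivization.finite_iff_of_finite (ZMod p) (Fin 3 → ZMod p)).2 inferInstance
  letI : Fintype Pt := Fintype.ofFinite Pt
  obtain ⟨S, hS1, hS2, hS3⟩ := exists_code Pt Pt
  have hle := hC _ S hS1 hS2
  have hord : order Pt Pt = p := by
    have h1 := card_points Pt Pt
    have h2 := Projectivization.card_of_finrank (ZMod p) (Fin 3 → ZMod p) (n := 3) (by simp)
    rw [Nat.card_eq_fintype_card] at h2
    have h3 : Fintype.card Pt = 1 + p + p ^ 2 := by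
      rw [h2]
      simp [Finset.sum_range_succ]
    rw [h3] at h1
    by_contra hne
    rcases lt_or_gt_of_ne hne with h | h
    · nlinarith
    · nlinarith
  rw [hS3, hord] at hle
  have hcard : (Fintype.card (Pt ⊕ Pt ⊕ Unit) : ℝ) = 2 * (Fintype.card Pt : ℝ) + 1 := by
    simp
    ring
  rw [hcard] at hle
  have hn1 : (1 : ℝ) ≤ Fintype.card Pt := by
    have h1 := card_points Pt Pt
    have : 1 ≤ Fintype.card Pt := by rw [h1]; omega
    exact_mod_cast this
  set n : ℝ := (Fintype.card Pt : ℝ) with hn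
  have hCabs : C ≤ |C| := le_abs_self C
  have h1 : n * ((p : ℝ) + 1) ≤ |C| * (3 * n) := by
    calc n * ((p : ℝ) + 1) ≤ C * (2 * n + 1) := hle
      _ ≤ |C| * (2 * n + 1) := by
        apply mul_le_mul_of_nonneg_right hCabs; linarith
      _ ≤ |C| * (3 * n) := by
        apply mul_le_mul_of_nonneg_left _ (abs_nonneg C); linarith
  have h2 : (p : ℝ) + 1 ≤ 3 * |C| := by
    have h3 : n * ((p : ℝ) + 1) ≤ n * (3 * |C|) := by linarith
    exact le_of_mul_le_mul_left h3 (by linarith)
  have h3 : 3 * |C| ≤ ⌈3 * |C|⌉₊ := Nat.le_ceil _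
  have h4 : ((⌈3 * |C|⌉₊ + 1 : ℕ) : ℝ) ≤ p := by exact_mod_cast hp
  push_cast at h4
  linarith

end Pool.Agent.H185R3
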